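import Pool.Agent.Lib.MP_524519_ag.DU5.TR.H61.Mpn

/-! Module ARCL of board d5t_modules: specialisation of a point. -/

set_option autoImplicit false

namespace Pool.Agent.DU5.TR.H61

open MvPowerSeries

section

variable {K A : Type} [CommRing K] [CommRing A]

lemma Ps_congr {T : Subring (K × A)} {M : ℕ} {s : PowerSeries K} {s' s'' : PowerSeries A}
    (h : (s, s') ∈ Ps T M) (he : ∀ m ≤ M, PowerSeries.coeff m s'' = PowerSeries.coeff m s') :
    (s, s'') ∈ Ps T M := by
  intro m hm
  have := h m hm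
  simp only at this ⊢
  rw [he m hm]
  exact this

lemma natCast_mem_pair (T : Subring (K × A)) (n : ℕ) : ((n : K), (n : A)) ∈ T := by
  have : ((n : K × A)) ∈ T := natCast_mem T n
  exact this

lemma Ps_der {T : Subring (K × A)} {M N : ℕ} (hMN : M + 1 ≤ N) {s : PowerSeries K}
    {s' : PowerSeries A} (h : (s, s') ∈ Ps T N) :
    (PowerSeries.derivative K s, PowerSeries.derivative A s') ∈ Ps T M := by
  intro m hm
  simp only [PowerSeries.coeff_derivative]
  have h1 := h (m + 1) (by omega)
  have h2 := natCast_mem_pair T (m + 1)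
  have h3 := T.mul_mem h1 h2
  simpa using h3

lemma Ps_inv {T : Subring (K × A)} {M : ℕ} {w v : PowerSeries K} {w' v' : PowerSeries A}
    (hw : (w, w') ∈ Ps T M) (h : w * v = 1) (h' : w' * v' = 1)
    (h0 : (PowerSeries.constantCoeff v, PowerSeries.constantCoeff v') ∈ T) :
    (v, v') ∈ Ps T M := by
  have key : ∀ (R : Type) [CommRing R] (a b : PowerSeries R), a * b = 1 → ∀ n : ℕ,
      PowerSeries.coeff (n + 1) b = -(PowerSeries.constantCoeff b *
        ∑ p ∈ Finset.HasAntidiagonal.antidiagonal n,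
          PowerSeries.coeff (p.1 + 1) a * PowerSeries.coeff p.2 b) := by
    intro R _ a b hab n
    have h1 : PowerSeries.coeff (n + 1) (a * b) = 0 := by
      rw [hab, PowerSeries.coeff_one, if_neg (by omega)]
    rw [PowerSeries.coeff_mul, Finset.Nat.sum_antidiagonal_succ] at h1
    have h2 : PowerSeries.constantCoeff a * PowerSeries.constantCoeff b = 1 := by
      rw [← map_mul, hab, map_one]
    simp only [PowerSeries.coeff_zero_eq_constantCoeff] at h1
    linear_combination PowerSeries.constantCoeff b * h1 - PowerSeries.coeff (n + 1) b * h2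
  intro m
  induction m using Nat.strong_induction_on with
  | _ m ih =>
    intro hm
    rcases m with _ | n
    · simp only [PowerSeries.coeff_zero_eq_constantCoeff]
      exact h0
    · simp only
      rw [key K w v h n, key A w' v' h' n]
      have h1 : (∑ p ∈ Finset.HasAntidiagonal.antidiagonal n,
            PowerSeries.coeff (p.1 + 1) w * PowerSeries.coeff p.2 v,
          ∑ p ∈ Finset.HasAntidiagonal.antidiagonal n,
            PowerSeries.coeff (p.1 + 1) w' * PowerSeries.coeff p.2 v') ∈ T := by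
        have h2 : (∑ p ∈ Finset.HasAntidiagonal.antidiagonal n,
              PowerSeries.coeff (p.1 + 1) w * PowerSeries.coeff p.2 v,
            ∑ p ∈ Finset.HasAntidiagonal.antidiagonal n,
              PowerSeries.coeff (p.1 + 1) w' * PowerSeries.coeff p.2 v') =
            ∑ p ∈ Finset.HasAntidiagonal.antidiagonal n,
              ((PowerSeries.coeff (p.1 + 1) w, PowerSeries.coeff (p.1 + 1) w') : K × A) *
                (PowerSeries.coeff p.2 v, PowerSeries.coeff p.2 v') := by
          apply Prod.ext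
          · rw [Prod.fst_sum]; simp
          · rw [Prod.snd_sum]; simp
        rw [h2]
        apply Subring.sum_mem
        intro p hp
        rw [Finset.HasAntidiagonal.mem_antidiagonal] at hp
        exact T.mul_mem (hw _ (by omega)) (ih p.2 (by omega) (by omega))
      exact T.neg_mem (T.mul_mem h0 h1)

end

lemma ccmap {A A' : Type} [CommRing A] [CommRing A'] (j : A →+* A') (s : PowerSeries A) :
    PowerSeries.constantCoeff (PowerSeries.map j s) = j (PowerSeries.constantCoeff s) := by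
  rw [← PowerSeries.coeff_zero_eq_constantCoeff_apply, PowerSeries.coeff_map,
    PowerSeries.coeff_zero_eq_constantCoeff_apply]

/-- `ev` commutes with the map on coefficients. -/
lemma ev_map {k A A' : Type} [Field k] [CommRing A] [Algebra k A] [CommRing A'] [Algebra k A']
    {n : ℕ} (j : A →+* A') (hj : ∀ a : k, j (algebraMap k A a) = algebraMap k A' a)
    (x : Fin n → PowerSeries A) (hx : ∀ l, PowerSeries.constantCoeff (x l) = 0) (f : O k n) :
    ev (fun l => PowerSeries.map j (x l)) f = PowerSeries.map j (ev x f) := by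
  ext m
  rw [PowerSeries.coeff_map, coeff_ev x hx f le_rfl, coeff_ev _ _ f le_rfl, map_sum]
  · apply Finset.sum_congr rfl
    intro α _
    rw [map_mul, hj]
    congr 1
    rw [← PowerSeries.coeff_map]
    congr 1
    rw [map_prod]
    apply Finset.prod_congr rfl
    intro l _
    rw [map_pow]
  · intro l
    rw [ccmap, hx l, map_zero]

lemma map_der {A A' : Type} [CommRing A] [CommRing A'] (j : A →+* A') (s : PowerSeries A) :
    PowerSeries.derivative A' (PowerSeries.map j s) =
      PowerSeries.map j (PowerSeries.derivative A s) := by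
  ext m
  rw [PowerSeries.coeff_map, PowerSeries.coeff_derivative, PowerSeries.coeff_derivative,
    PowerSeries.coeff_map, map_mul]
  simp

theorem arcl (h1 : CngStatement) (h2 : NewtStatement) : ArclStatement := by
  intro k K F _ _ _ _ D B B' ψ φ hS f f' x i c N v hd hN hv0 hf hxB
  obtain ⟨hBB, hDB, hφψ, hφD⟩ := hS
  obtain ⟨hx, hfx, w, hw, hwv⟩ := hd
  -- the approximate point
  let x0 : Fin 3 → PowerSeries (PowerSeries F) := fun j => PowerSeries.mk fun m =>
    if h : m ≤ N then φ ⟨PowerSeries.coeff m (x j), hxB j m h⟩ else 0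
  have hx0c : ∀ j, ∀ m, ∀ h : m ≤ N,
      PowerSeries.coeff m (x0 j) = φ ⟨PowerSeries.coeff m (x j), hxB j m h⟩ := by
    intro j m h
    simp only [x0, PowerSeries.coeff_mk, dif_pos h]
  have hx0 : ∀ j, PowerSeries.constantCoeff (x0 j) = 0 := by
    intro j
    rw [← PowerSeries.coeff_zero_eq_constantCoeff_apply, hx0c j 0 (Nat.zero_le _)]
    have : (⟨PowerSeries.coeff 0 (x j), hxB j 0 (Nat.zero_le _)⟩ : B) = 0 := by
      apply Subtype.ext
      simp only [PowerSeries.coeff_zero_eq_constantCoeff, hx j]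
      rfl
    rw [this, map_zero]
  have hP : ∀ j, (x j, x0 j) ∈ Ps (Gr B φ) N := by
    intro j m hm
    exact mem_Gr.mpr ⟨_, rfl, (hx0c j m hm).symm⟩
  have hfT : ∀ α : Fin 3 →₀ ℕ, α.degree ≤ N →
      (algebraMap k K (coeff α f), algebraMap F (PowerSeries F) (coeff α f')) ∈ Gr B φ := by
    intro α hα
    obtain ⟨b, hb1, hb2⟩ := hf α hα
    exact mem_Gr.mpr ⟨b, hb1, hb2⟩
  have hE : (ev x f, ev x0 f') ∈ Ps (Gr B φ) N := mpn' _ N f f' x x0 hx hx0 hfT hP
  have hzero : ∀ a' : PowerSeries F, ((0 : K), a') ∈ Gr B φ → a' = 0 := by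
    intro a' ha
    obtain ⟨b, hb1, hb2⟩ := mem_Gr.mp ha
    have : b = 0 := Subtype.ext hb1
    rw [← hb2, this, map_zero]
  have hdiv : PowerSeries.X ^ N ∣ ev x0 f' := by
    rw [PowerSeries.X_pow_dvd_iff]
    intro m hm
    have := hE m (by omega)
    simp only [hfx, map_zero] at this
    exact hzero _ this
  have hpT : ∀ α : Fin 3 →₀ ℕ, α.degree ≤ N - 1 →
      (algebraMap k K (coeff α (pderiv k i f)),
        algebraMap F (PowerSeries F) (coeff α (pderiv F i f'))) ∈ Gr B φ := by
    intro α hα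
    have hdeg : (α + Finsupp.single i 1).degree ≤ N := by
      rw [map_add, Finsupp.degree_single]; omega
    have h3 := (Gr B φ).mul_mem (hfT _ hdeg) (natCast_mem_pair (Gr B φ) (α i + 1))
    rw [coeff_pderiv, coeff_pderiv]
    simpa using h3
  have hE' : (ev x (pderiv k i f), ev x0 (pderiv F i f')) ∈ Ps (Gr B φ) (N - 1) :=
    mpn' _ (N - 1) _ _ x x0 hx hx0 hpT (fun j => Ps_mono (by omega) (hP j))
  have hdiv' : PowerSeries.X ^ c ∣ ev x0 (pderiv F i f') := by
    rw [PowerSeries.X_pow_dvd_iff]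
    intro m hm
    have h3 := hE' m (by omega)
    have h4 : PowerSeries.coeff m (ev x (pderiv k i f)) = 0 := by
      rw [hw, PowerSeries.coeff_X_pow_mul', if_neg (by omega)]
    simp only [h4] at h3
    exact hzero _ h3
  obtain ⟨w0, hw0⟩ := hdiv'
  have hW : (w, w0) ∈ Ps (Gr B φ) (N - 1 - c) := by
    intro m hm
    have h3 := hE' (m + c) (by omega)
    simp only [hw, hw0, PowerSeries.coeff_X_pow_mul] at h3
    exact h3
  -- the constant terms
  have hwv0 : PowerSeries.constantCoeff w * PowerSeries.constantCoeff v = 1 := by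
    rw [← map_mul, hwv, map_one]
  obtain ⟨bw, hbw1, hbw2⟩ := mem_Gr.mp (hW 0 (Nat.zero_le _))
  simp only [PowerSeries.coeff_zero_eq_constantCoeff] at hbw1 hbw2
  have hφ1 : PowerSeries.constantCoeff w0 * φ ⟨PowerSeries.constantCoeff v, hv0⟩ = 1 := by
    rw [← hbw2, ← map_mul]
    have : bw * ⟨PowerSeries.constantCoeff v, hv0⟩ = (1 : B) := by
      apply Subtype.ext
      simp only [Subring.coe_mul, hbw1, hwv0, Subring.coe_one]
    rw [this, map_one]
  have hunit : IsUnit w0 := by
    rw [PowerSeries.isUnit_iff_constantCoeff]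
    exact IsUnit.of_mul_eq_one _ hφ1
  obtain ⟨x', hx', hx'j, hx'i, hfx'⟩ := h2 F (PowerSeries F) f' x0 i c N w0 hx0 (by omega) hdiv
    hw0 hunit
  have hxx : ∀ j, PowerSeries.X ^ (N - c) ∣ x' j - x0 j := by
    intro j
    by_cases hj : j = i
    · rw [hj]; exact hx'i
    · rw [hx'j j hj, sub_self]; exact dvd_zero _
  obtain ⟨r, hr⟩ := h1 3 F (PowerSeries F) (pderiv F i f') x0 x' (N - c) hx0 hx' hxx
  have hsplit : (PowerSeries.X : PowerSeries (PowerSeries F)) ^ (N - c) =
      PowerSeries.X ^ c * PowerSeries.X ^ (N - 2 * c) := by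
    rw [← pow_add]; congr 1; omega
  set w' : PowerSeries (PowerSeries F) := w0 + PowerSeries.X ^ (N - 2 * c) * r with hw'
  have hfi : ev x' (pderiv F i f') = PowerSeries.X ^ c * w' := by
    have : ev x' (pderiv F i f') = PowerSeries.X ^ (N - c) * r + ev x0 (pderiv F i f') := by
      rw [← hr]; ring
    rw [this, hw0, hsplit, hw']; ring
  have hw'0 : ∀ m < N - 2 * c, PowerSeries.coeff m w' = PowerSeries.coeff m w0 := by
    intro m hm
    rw [hw', map_add, PowerSeries.coeff_X_pow_mul', if_neg (by omega), add_zero]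
  have hw'c : PowerSeries.constantCoeff w' = PowerSeries.constantCoeff w0 := by
    have := hw'0 0 (by omega)
    simpa only [PowerSeries.coeff_zero_eq_constantCoeff] using this
  have hunit' : IsUnit w' := by
    rw [PowerSeries.isUnit_iff_constantCoeff, hw'c]
    exact IsUnit.of_mul_eq_one _ hφ1
  obtain ⟨v', hv'⟩ := hunit'.exists_right_inv
  have hv'0 : PowerSeries.constantCoeff v' = φ ⟨PowerSeries.constantCoeff v, hv0⟩ := by
    have h3 : PowerSeries.constantCoeff w0 * PowerSeries.constantCoeff v' = 1 := by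
      rw [← hw'c, ← map_mul, hv', map_one]
    linear_combination (φ ⟨PowerSeries.constantCoeff v, hv0⟩) * h3 -
      PowerSeries.constantCoeff v' * hφ1
  refine ⟨x', v', ⟨hx', hfx', w', hfi, hv'⟩, ?_⟩
  -- reduction modulo `τ`
  intro h h' hh m hm
  set θ : PowerSeries (PowerSeries F) →+* PowerSeries F :=
    PowerSeries.map (PowerSeries.constantCoeff : PowerSeries F →+* F) with hθ
  have hred : ∀ (s : PowerSeries K) (s0 : PowerSeries (PowerSeries F)) (M : ℕ),
      (s, s0) ∈ Ps (Gr B φ) M → (s, θ s0) ∈ Ps (Gr B' ψ) M := by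
    intro s s0 M hs0 m hm
    obtain ⟨b, hb1, hb2⟩ := mem_Gr.mp (hs0 m hm)
    refine mem_Gr.mpr ⟨⟨b, hBB b.2⟩, hb1, ?_⟩
    simp only [hθ, PowerSeries.coeff_map]
    simp only at hb2
    rw [← hb2]
    exact (hφψ b _ rfl).symm
  have hcx : ∀ j, ∀ m < N - c, PowerSeries.coeff m (x' j) = PowerSeries.coeff m (x0 j) := by
    intro j m hm
    obtain ⟨q, hq⟩ := hxx j
    have : x' j = x0 j + PowerSeries.X ^ (N - c) * q := by rw [← hq]; ring
    rw [this, map_add, PowerSeries.coeff_X_pow_mul', if_neg (by omega), add_zero]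
  have hX : ∀ j, (x j, θ (x' j)) ∈ Ps (Gr B' ψ) (c + 1) := by
    intro j
    refine Ps_congr (hred _ _ _ (Ps_mono (M := c + 1) (by omega) (hP j))) ?_
    intro m hm
    simp only [hθ, PowerSeries.coeff_map]
    rw [hcx j m (by omega)]
  have hH : (ev x h, θ (ev x' h')) ∈ Ps (Gr B' ψ) (c + 1) := by
    have h3 := mpn' (Gr B' ψ) (c + 1) h h' x (fun j => θ (x' j)) hx
      (fun j => by rw [hθ, ccmap, hx' j, map_zero])
      (fun α hα => by
        obtain ⟨b, hb1, hb2⟩ := hh α (by omega)
        exact mem_Gr.mpr ⟨b, hb1, hb2⟩) hX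
    have h4 : ev (fun j => θ (x' j)) h' = θ (ev x' h') :=
      ev_map (PowerSeries.constantCoeff : PowerSeries F →+* F)
        (fun a => PowerSeries.constantCoeff_C a) x' hx' h'
    rw [h4] at h3
    exact h3
  have hD1 : ∀ j, (PowerSeries.derivative K (x j),
      θ (PowerSeries.derivative (PowerSeries F) (x' j))) ∈ Ps (Gr B' ψ) c := by
    intro j
    have := Ps_der (M := c) le_rfl (hX j)
    rwa [map_der] at this
  have hD2 : ∀ j, (dl D (x j), θ (dl (PowerSeries.derivative F) (x' j))) ∈ Ps (Gr B' ψ) c := by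
    intro j m hm
    simp only [dl, hθ, PowerSeries.coeff_map, PowerSeries.coeff_mk]
    rw [hcx j m (by omega), hx0c j m (by omega)]
    set b : B := ⟨PowerSeries.coeff m (x j), hxB j m (by omega)⟩ with hb
    have h3 := hφD b ⟨D b, hDB b b.2⟩ rfl
    refine mem_Gr.mpr ⟨⟨D b, hDB b b.2⟩, rfl, ?_⟩
    rw [← h3, ← PowerSeries.coeff_zero_eq_constantCoeff_apply, PowerSeries.coeff_derivative]
    simp
  have hJ : (jm D x i, θ (jm (PowerSeries.derivative F) x' i)) ∈ Ps (Gr B' ψ) c := by
    have h3 := (Ps (Gr B' ψ) c).sub_mem ((Ps (Gr B' ψ) c).mul_mem (hD1 (i + 1)) (hD2 (i + 2)))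
      ((Ps (Gr B' ψ) c).mul_mem (hD1 (i + 2)) (hD2 (i + 1)))
    simpa [jm] using h3
  have hV : (v, θ v') ∈ Ps (Gr B' ψ) c := by
    have hWψ : (w, θ w') ∈ Ps (Gr B' ψ) c := by
      refine Ps_congr (hred _ _ _ (Ps_mono (M := c) (by omega) hW)) ?_
      intro m hm
      simp only [hθ, PowerSeries.coeff_map]
      rw [hw'0 m (by omega)]
    refine Ps_inv hWψ hwv (by rw [← map_mul, hv', map_one]) ?_
    refine mem_Gr.mpr ⟨⟨PowerSeries.constantCoeff v, hBB hv0⟩, rfl, ?_⟩
    rw [hθ, ccmap, hv'0]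
    exact (hφψ _ _ rfl).symm
  have hfin := (Ps (Gr B' ψ) c).mul_mem ((Ps (Gr B' ψ) c).mul_mem hV
    (Ps_mono (Nat.le_succ c) hH)) hJ
  obtain ⟨b, hb1, hb2⟩ := mem_Gr.mp (hfin m (by omega))
  refine ⟨b, hb1, ?_⟩
  simp only [Prod.snd_mul, ← map_mul] at hb2
  rw [hb2, hθ, PowerSeries.coeff_map]
  rfl

end Pool.Agent.DU5.TR.H61
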