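import Pool.Agent.Lib.MP_524519_ag.DU5.TR.Iface

/-! Module MPN of board d5t_modules: the coefficients of `f (x)` are polynomials in those of `f` and
of `x`. Everything is expressed by subrings of a product of two rings. -/

set_option autoImplicit false

namespace Pool.Agent.DU5.TR.H61

open MvPowerSeries

/-! ### The formula for the coefficients -/

/-- The exponents of degree at most `N`. -/
noncomputable def Sx (n N : ℕ) : Finset (Fin n →₀ ℕ) :=
  (Finsupp.finite_of_degree_le N : Set.Finite {α : Fin n →₀ ℕ | α.degree ≤ N}).toFinset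

lemma mem_Sx {n N : ℕ} {α : Fin n →₀ ℕ} : α ∈ Sx n N ↔ α.degree ≤ N := by
  simp [Sx]

lemma X_pow_dvd_prod {A : Type} [CommRing A] {n : ℕ} (x : Fin n → PowerSeries A)
    (hx : ∀ j, PowerSeries.constantCoeff (x j) = 0) (α : Fin n →₀ ℕ) :
    PowerSeries.X ^ α.degree ∣ ∏ j, x j ^ α j := by
  rw [Finsupp.degree_eq_sum, ← Finset.prod_pow_eq_pow_sum]
  apply Finset.prod_dvd_prod_of_dvd
  intro j _
  exact pow_dvd_pow_of_dvd (PowerSeries.X_dvd_iff.mpr (hx j)) _

lemma coeff_ev {k A : Type} [Field k] [CommRing A] [Algebra k A] {n : ℕ}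
    (x : Fin n → PowerSeries A) (hx : ∀ j, PowerSeries.constantCoeff (x j) = 0) (f : O k n)
    {m N : ℕ} (h : m ≤ N) :
    PowerSeries.coeff m (ev x f) =
      ∑ α ∈ Sx n N, algebraMap k A (coeff α f) * PowerSeries.coeff m (∏ j, x j ^ α j) := by
  have h1 : PowerSeries.coeff m (ev x f) = finsum (fun d : Fin n →₀ ℕ => coeff d f •
      (PowerSeries.coeff m (d.prod fun s e => (x s) ^ e))) :=
    MvPowerSeries.coeff_subst (hs hx) f (Finsupp.single () m)
  rw [h1, finsum_eq_sum_of_support_subset]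
  · apply Finset.sum_congr rfl
    intro α _
    rw [Algebra.smul_def, Finsupp.prod_fintype _ _ (fun i => pow_zero _)]
  · intro d hd
    rw [Function.mem_support] at hd
    simp only [Finset.mem_coe, mem_Sx]
    by_contra hcon
    apply hd
    rw [Finsupp.prod_fintype _ _ (fun i => pow_zero _)]
    rw [PowerSeries.X_pow_dvd_iff.mp (X_pow_dvd_prod x hx d) m (by omega), smul_zero]

/-! ### Truncated subrings -/

/-- The graph of `φ : B → A` as a subring of `K × A`. -/
def Gr {K A : Type} [CommRing K] [CommRing A] (B : Subring K) (φ : B →+* A) : Subring (K × A) :=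
  (RingHom.prod B.subtype φ).range

lemma mem_Gr {K A : Type} [CommRing K] [CommRing A] {B : Subring K} {φ : B →+* A} {a : K} {a' : A} :
    (a, a') ∈ Gr B φ ↔ ∃ b : B, (b : K) = a ∧ φ b = a' := by
  simp only [Gr, RingHom.mem_range]
  constructor
  · rintro ⟨b, hb⟩
    rw [Prod.ext_iff] at hb
    exact ⟨b, hb.1, hb.2⟩
  · rintro ⟨b, h1, h2⟩
    exact ⟨b, Prod.ext h1 h2⟩

/-- Pairs of power series whose coefficients up to `N` are in `T`. -/
def Ps {K A : Type} [CommRing K] [CommRing A] (T : Subring (K × A)) (N : ℕ) :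
    Subring (PowerSeries K × PowerSeries A) where
  carrier := {s | ∀ m ≤ N, (PowerSeries.coeff m s.1, PowerSeries.coeff m s.2) ∈ T}
  zero_mem' := by
    intro m _
    exact T.zero_mem
  one_mem' := by
    intro m _
    simp only [Prod.fst_one, Prod.snd_one, PowerSeries.coeff_one]
    split_ifs
    · exact T.one_mem
    · exact T.zero_mem
  add_mem' := by
    intro a b ha hb m hm
    simpa using T.add_mem (ha m hm) (hb m hm)
  neg_mem' := by
    intro a ha m hm
    simpa using T.neg_mem (ha m hm)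
  mul_mem' := by
    intro a b ha hb m hm
    simp only [Prod.fst_mul, Prod.snd_mul, PowerSeries.coeff_mul]
    have h1 : (∑ p ∈ Finset.HasAntidiagonal.antidiagonal m, PowerSeries.coeff p.1 a.1 * PowerSeries.coeff p.2 b.1,
        ∑ p ∈ Finset.HasAntidiagonal.antidiagonal m, PowerSeries.coeff p.1 a.2 * PowerSeries.coeff p.2 b.2) =
        ∑ p ∈ Finset.HasAntidiagonal.antidiagonal m,
          ((PowerSeries.coeff p.1 a.1, PowerSeries.coeff p.1 a.2) : K × A) *
            (PowerSeries.coeff p.2 b.1, PowerSeries.coeff p.2 b.2) := by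
      apply Prod.ext
      · rw [Prod.fst_sum]; simp
      · rw [Prod.snd_sum]; simp
    rw [h1]
    apply Subring.sum_mem
    intro p hp
    rw [Finset.HasAntidiagonal.mem_antidiagonal] at hp
    exact T.mul_mem (ha _ (by omega)) (hb _ (by omega))

lemma mem_Ps {K A : Type} [CommRing K] [CommRing A] {T : Subring (K × A)} {N : ℕ}
    {s : PowerSeries K} {s' : PowerSeries A} :
    (s, s') ∈ Ps T N ↔ ∀ m ≤ N, (PowerSeries.coeff m s, PowerSeries.coeff m s') ∈ T := Iff.rfl

lemma Ps_mono {K A : Type} [CommRing K] [CommRing A] {T : Subring (K × A)} {N M : ℕ} (h : M ≤ N)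
    {s : PowerSeries K} {s' : PowerSeries A} (hs : (s, s') ∈ Ps T N) : (s, s') ∈ Ps T M :=
  fun m hm => hs m (by omega)

/-- MPN with subrings. -/
lemma mpn' {n : ℕ} {k K F A : Type} [Field k] [CommRing K] [Algebra k K] [Field F] [CommRing A]
    [Algebra F A] (T : Subring (K × A)) (N : ℕ) (f : O k n) (f' : O F n)
    (x : Fin n → PowerSeries K) (x' : Fin n → PowerSeries A)
    (hx : ∀ j, PowerSeries.constantCoeff (x j) = 0)
    (hx' : ∀ j, PowerSeries.constantCoeff (x' j) = 0)
    (hf : ∀ α : Fin n →₀ ℕ, α.degree ≤ N →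
      (algebraMap k K (coeff α f), algebraMap F A (coeff α f')) ∈ T)
    (hxx : ∀ j, (x j, x' j) ∈ Ps T N) : (ev x f, ev x' f') ∈ Ps T N := by
  intro m hm
  simp only
  rw [coeff_ev x hx f hm, coeff_ev x' hx' f' hm]
  have h1 : (∑ α ∈ Sx n N, algebraMap k K (coeff α f) * PowerSeries.coeff m (∏ j, x j ^ α j),
      ∑ α ∈ Sx n N, algebraMap F A (coeff α f') * PowerSeries.coeff m (∏ j, x' j ^ α j)) =
      ∑ α ∈ Sx n N, ((algebraMap k K (coeff α f), algebraMap F A (coeff α f')) : K × A) *
        (PowerSeries.coeff m (∏ j, x j ^ α j), PowerSeries.coeff m (∏ j, x' j ^ α j)) := by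
    apply Prod.ext
    · rw [Prod.fst_sum]; simp
    · rw [Prod.snd_sum]; simp
  rw [h1]
  apply Subring.sum_mem
  intro α hα
  rw [mem_Sx] at hα
  refine T.mul_mem (hf α hα) ?_
  have h2 : ((∏ j, x j ^ α j, ∏ j, x' j ^ α j) : PowerSeries K × PowerSeries A) ∈ Ps T N := by
    have h3 : ((∏ j, x j ^ α j, ∏ j, x' j ^ α j) : PowerSeries K × PowerSeries A) =
        ∏ j, ((x j, x' j) : PowerSeries K × PowerSeries A) ^ α j := by
      apply Prod.ext
      · rw [Prod.fst_prod]; simp
      · rw [Prod.snd_prod]; simp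
    rw [h3]
    exact Subring.prod_mem _ fun j _ => Subring.pow_mem _ (hxx j) _
  exact h2 m hm

theorem mpn : MpnStatement := by
  intro n k K F A _ _ _ _ _ _ B φ N f f' x x' hx hx' hf hxx m hm
  have h := mpn' (Gr B φ) N f f' x x' hx hx' (fun α hα => mem_Gr.mpr (hf α hα))
    (fun j m hm => mem_Gr.mpr (hxx j m hm))
  exact mem_Gr.mp (h m hm)

end Pool.Agent.DU5.TR.H61
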